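import Pool.Agent.H252R3.Leh.Fin

/-!
# Lehmer's problem for polynomials with many irreducible factors modulo a prime

Let `p` be a prime and `f` an irreducible integer polynomial of degree `d` with `M(f) > 1`.
(1) If `f mod p` has `r` irreducible factors, counted with multiplicity, then
`log M(f) ≥ (r² / (180 d²)) ^ 5 * p ^ (-2 d / r - 2)`. So `r ≥ θ d` implies `M(f) ≥ c(p, θ) > 1`.
(2) If `f` is monic and `f mod p` and `X ^ N - 1` have a common divisor of degree `g`, then
`N log M(f) ≥ d * (min(1, g log p / d) / 20) ^ 5`.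
-/

set_option autoImplicit false

open Polynomial UniqueFactorizationMonoid

namespace Pool.Agent.Results.MP_dc0c68_nt.FactorsModP

/-- The Mahler measure of an integer polynomial. -/
noncomputable def M (f : ℤ[X]) : ℝ := (f.map (Int.castRingHom ℂ)).mahlerMeasure

/-- The number of irreducible factors of `f` modulo `p`, counted with multiplicity. -/
noncomputable def numFactors (p : ℕ) [Fact p.Prime] (f : ℤ[X]) : ℕ :=
  Multiset.card (normalizedFactors (f.map (Int.castRingHom (ZMod p))))

theorem result (p : ℕ) [Fact p.Prime] (f : ℤ[X]) (hf : Irreducible f) (hM : 1 < M f) :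
    (((numFactors p f : ℝ) / f.natDegree) ^ 2 / 180) ^ 5 *
        (p : ℝ) ^ (-(2 * (f.natDegree : ℝ) / numFactors p f) - 2) ≤ Real.log (M f) ∧
    (f.Monic → ∀ N : ℕ, 1 ≤ N → ∀ H : (ZMod p)[X], H ∣ f.map (Int.castRingHom (ZMod p)) →
      H ∣ X ^ N - 1 →
      (min 1 (H.natDegree * Real.log p / f.natDegree) / 20) ^ 5 * f.natDegree
        ≤ N * Real.log (M f)) := by
  refine ⟨Pool.Agent.H252R3.Leh.factor_bound p f hf hM, ?_⟩
  intro hm N hN H h1 h2
  have hp : p.Prime := Fact.out
  have hp1 : (1:ℝ) < p := by exact_mod_cast hp.one_lt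
  have hlp : 0 < Real.log p := Real.log_pos hp1
  have hlM : 0 < Real.log (M f) := Real.log_pos hM
  have hd : 1 ≤ f.natDegree := Pool.Agent.H252R3.Leh.natDegree_pos_of' f hm hf
  have hd0 : (0:ℝ) < f.natDegree := by exact_mod_cast hd
  rcases Nat.eq_zero_or_pos H.natDegree with h0 | h0
  · have h3 : min 1 ((H.natDegree : ℝ) * Real.log p / f.natDegree) = 0 := by
      rw [h0]
      simp
    rw [h3]
    simp only [zero_div, ne_eq, OfNat.ofNat_ne_zero, not_false_eq_true, zero_pow, zero_mul]
    positivity
  · have h0' : (0:ℝ) < H.natDegree := by exact_mod_cast h0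
    apply Pool.Agent.H252R3.Leh.main_monic p f hm hf hM N hN H h1 h2
    · apply lt_min one_pos
      positivity
    · exact min_le_left _ _
    · calc min 1 ((H.natDegree : ℝ) * Real.log p / f.natDegree) * f.natDegree
          ≤ ((H.natDegree : ℝ) * Real.log p / f.natDegree) * f.natDegree := by
            gcongr
            exact min_le_right _ _
        _ = _ := by field_simp

end Pool.Agent.Results.MP_dc0c68_nt.FactorsModP
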